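import Pool.Agent.Y425.PC.Fin

set_option autoImplicit false

/-!
Cycle covers of total length at most 7/5 times the number of edges in all bridgeless graphs of
cutwidth at most six.

A finite graph, loops and parallel edges allowed, has the vertex set `V` and the edge set `E`; the
ends of the edge `e` are `s e` and `t e`. The cutwidth is at most six if the vertices can be placed
on a line such that at most six edges pass over each gap. The proof gives a map of the edges to the
edges of the Petersen graph such that the preimages of cycles are cycles (see the file
Results/MP_03045a_co/CutwidthSix), and averages over the images of a cycle cover of length 21 of the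
Petersen graph under its 120 automorphisms.
-/

open Finset

namespace Pool.Agent.Results.MP_95e9b3_co.CutwidthSix

/-- the set of edges `C` is even: all degrees are even, where a loop counts twice -/
def IsEven {V E : Type} [DecidableEq V] (s t : E → V) (C : Finset E) : Prop :=
  ∀ v, Even (∑ e ∈ C, ((if s e = v then 1 else 0) + (if t e = v then 1 else 0)))

/-- the edge set of a circuit (a cycle of the problem): a minimal nonempty even set of edges -/
def IsCircuit {V E : Type} [DecidableEq V] (s t : E → V) (C : Finset E) : Prop :=
  C.Nonempty ∧ IsEven s t C ∧ ∀ D ⊆ C, D.Nonempty → IsEven s t D → D = C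

/-- Let `G` be a finite graph such that no set of vertices is left by exactly one edge (no bridges)
and that the vertices can be numbered injectively by natural numbers such that for each `n` at most
six edges join a vertex with number smaller than `n` to a vertex with number at least `n`. Then
(1) the edges are covered by circuits of total length at most 7/5 times the number of edges, and
(2) they are covered by four even subgraphs with this property. -/
theorem result (V E : Type) [Fintype V] [DecidableEq V] [Fintype E] [DecidableEq E] (s t : E → V)
    (hbridge : ∀ Z : Finset V, (univ.filter fun e => ¬ (s e ∈ Z ↔ t e ∈ Z)).card ≠ 1)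
    (hwidth : ∃ f : V → ℕ, Function.Injective f ∧
      ∀ n, (univ.filter fun e => ¬ (f (s e) < n ↔ f (t e) < n)).card ≤ 6) :
    (∃ F : Multiset (Finset E), (∀ C ∈ F, IsCircuit s t C) ∧ (∀ e, ∃ C ∈ F, e ∈ C) ∧
      5 * (F.map Finset.card).sum ≤ 7 * Fintype.card E) ∧
    ∃ D : Fin 4 → Finset E, (∀ k, IsEven s t (D k)) ∧ (∀ e, ∃ k, e ∈ D k) ∧
      5 * ∑ k, (D k).card ≤ 7 * Fintype.card E :=
  ⟨Pool.Agent.Y425.PC.short V E s t hbridge hwidth,
    Pool.Agent.Y425.PC.short4 V E s t hbridge hwidth⟩

end Pool.Agent.Results.MP_95e9b3_co.CutwidthSix
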